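import Pool.Agent.MP_c1891a_nt.H43.Spec

/-
Row Root: the contribution of one root to a sum over a class of primitive roots.
-/

namespace Pool.Agent.MP_c1891a_nt.H43

open Finset Polynomial

lemma root_prod {p : ℕ} (hp : 0 < p) {ζ : ℂ} (hζ : IsPrimitiveRoot ζ p) (z α : ℂ) :
    ∏ j ∈ range p, ‖ζ ^ j * z - α‖ = ‖α ^ p - z ^ p‖ := by
  have h := X_pow_sub_C_eq_prod hζ hp (rfl : z ^ p = z ^ p)
  have h2 := congrArg (fun q => ‖Polynomial.eval α q‖) h
  simp only [eval_sub, eval_pow, eval_X, eval_C, eval_prod, norm_prod] at h2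
  rw [h2]
  exact Finset.prod_congr rfl fun j _ => norm_sub_rev _ _

lemma root_prog {L n : ℕ} {X₀ α : ℂ} {z d : ℝ} (hN : 0 < L * n) (hX : IsPrimitiveRoot X₀ (L * n))
    (hz : 1 ≤ z) (hz2 : z ^ (L * n) ≤ 2) (hd : 0 < d) (hd1 : d ≤ 1)
    (h : d * max 1 ‖α‖ ^ (L * n) ≤ ‖α ^ (L * n) - (z : ℂ) ^ (L * n)‖) (j : ℕ) :
    |∑ i ∈ range n, (Real.log ‖X₀ ^ (j + L * i) * z - α‖ - Real.log (max 1 ‖α‖))| ≤
      Real.log (3 * (L * n : ℕ) / d) := by
  have hL : 0 < L := Nat.pos_of_mul_pos_right hN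
  have hn : 0 < n := Nat.pos_of_mul_pos_left hN
  set m := max 1 ‖α‖ with hm
  have m1 : 1 ≤ m := le_max_left _ _
  have m2 : ‖α‖ ≤ m := le_max_right _ _
  set w : ℂ := X₀ ^ j * z with hw
  have hw1 : ‖w‖ = z := by
    rw [hw, norm_mul, norm_pow, hX.norm'_eq_one hN.ne', one_pow, one_mul, Complex.norm_real,
      Real.norm_of_nonneg (by linarith)]
  have hw2 : (w ^ n) ^ L = (z : ℂ) ^ (L * n) := by
    rw [← pow_mul, mul_comm n, hw, mul_pow, ← pow_mul, mul_comm j, pow_mul X₀, hX.pow_eq_one,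
      one_pow, one_mul]
  have hP := root_prod hn (hX.pow hN rfl) w α
  have e : ∀ i, X₀ ^ (j + L * i) * z = (X₀ ^ L) ^ i * w := fun i => by
    rw [hw, pow_add, pow_mul]
    ring
  have zk : ∀ k, k ≤ L * n → z ^ k ≤ 2 := fun k hk => (pow_le_pow_right₀ hz hk).trans hz2
  have mn : 1 ≤ m ^ n := one_le_pow₀ m1
  have up : ‖α ^ n - w ^ n‖ ≤ 3 * m ^ n := by
    refine (norm_sub_le _ _).trans ?_
    rw [norm_pow, norm_pow, hw1]
    have := zk n (Nat.le_mul_of_pos_left n hL)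
    have := pow_le_pow_left₀ (norm_nonneg _) m2 n
    linarith
  have n1 : (1 : ℝ) ≤ n := by exact_mod_cast hn
  have L1 : (1 : ℝ) ≤ L := by exact_mod_cast hL
  have lo : d * m ^ n ≤ 3 * (L * n : ℕ) * ‖α ^ n - w ^ n‖ := by
    have g := geom_sum₂_mul (α ^ n) (w ^ n) L
    rw [hw2, ← pow_mul, mul_comm n] at g
    rw [← g, norm_mul] at h
    have c : ‖∑ i ∈ range L, (α ^ n) ^ i * (w ^ n) ^ (L - 1 - i)‖ ≤ L * ((m ^ n) ^ (L - 1) * 2) := by
      refine (norm_sum_le _ _).trans ((sum_le_card_nsmul _ _ _ fun i hi => ?_).trans_eq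
        (by rw [card_range, nsmul_eq_mul]))
      have hi' := mem_range.1 hi
      rw [norm_mul, norm_pow, norm_pow, norm_pow, norm_pow, hw1]
      refine mul_le_mul ((pow_le_pow_left₀ (by positivity)
        (pow_le_pow_left₀ (norm_nonneg _) m2 n) i).trans (pow_le_pow_right₀ mn (by omega)))
        ?_ (by positivity) (by positivity)
      rw [← pow_mul, mul_comm]
      exact zk _ (Nat.mul_le_mul_right _ (by omega))
    have e2 : m ^ (L * n) = m ^ n * (m ^ n) ^ (L - 1) := by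
      rw [← pow_succ', Nat.sub_add_cancel hL, ← pow_mul, mul_comm]
    have p0 : 0 < (m ^ n) ^ (L - 1) := by positivity
    have h2 := h.trans (mul_le_mul_of_nonneg_right c (norm_nonneg _))
    rw [e2] at h2
    have h3 : d * m ^ n ≤ L * 2 * ‖α ^ n - w ^ n‖ :=
      le_of_mul_le_mul_right (by linarith) p0
    refine h3.trans (mul_le_mul_of_nonneg_right ?_ (norm_nonneg _))
    push_cast
    nlinarith
  have N1 : (1 : ℝ) ≤ (L * n : ℕ) := by exact_mod_cast hN
  have P0 : 0 < ‖α ^ n - w ^ n‖ := by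
    have : 0 < d * m ^ n := by positivity
    exact pos_of_mul_pos_right (this.trans_le lo) (by positivity)
  simp only [e]
  rw [sum_sub_distrib, ← Real.log_prod (prod_ne_zero_iff.1 (hP ▸ P0.ne')), hP, sum_const,
    card_range, nsmul_eq_mul, ← Real.log_pow, ← Real.log_div P0.ne' (by positivity), abs_le]
  constructor
  · rw [← Real.log_inv]
    refine Real.log_le_log (by positivity) ?_
    rw [inv_div, div_le_div_iff₀ (by positivity) (by positivity)]
    linarith
  · refine Real.log_le_log (by positivity) ?_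
    rw [div_le_div_iff₀ (by positivity) hd]
    nlinarith [mul_le_mul_of_nonneg_left hd1 P0.le, mul_le_mul_of_nonneg_right N1 (zero_le_one.trans mn)]

lemma root_class {N g e ι : ℕ} (hN : 0 < N) (hg : g ∣ N) (he : e ∣ N) (Φ : ℕ → ℝ) {B : ℝ}
    (hB : 0 ≤ B) (h : ∀ L n j, N = L * n → |∑ i ∈ range n, Φ (j + L * i)| ≤ B) :
    |∑ j ∈ (range N).filter fun j => j % g = ι ∧ e ∣ j, Φ j| ≤ B := by
  rcases ((range N).filter fun j => j % g = ι ∧ e ∣ j).eq_empty_or_nonempty with h0 | ⟨j₁, h1⟩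
  · rwa [h0, sum_empty, abs_zero]
  obtain ⟨n, hn⟩ := Nat.lcm_dvd he hg
  obtain ⟨-, a1, a2⟩ := mem_filter.1 h1
  set L := e.lcm g with hL
  have L0 : 0 < L := Nat.pos_of_mul_pos_right (hn ▸ hN)
  have l1 : e ∣ L := Nat.dvd_lcm_left e g
  have l2 : g ∣ L := Nat.dvd_lcm_right e g
  have key : ∀ j, (j % g = ι ∧ e ∣ j) ↔ j % L = j₁ % L := by
    intro j
    constructor
    · rintro ⟨b1, b2⟩
      refine (Nat.modEq_iff_dvd.2 ?_ : j ≡ j₁ [MOD L])
      have c1 : j ≡ j₁ [MOD g] := b1.trans a1.symm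
      have c2 : j ≡ j₁ [MOD e] := ((Nat.modEq_zero_iff_dvd.2 b2).trans (Nat.modEq_zero_iff_dvd.2 a2).symm)
      exact Int.natCast_dvd.2 (Nat.lcm_dvd (Int.natCast_dvd.1 c2.dvd) (Int.natCast_dvd.1 c1.dvd))
    · intro b
      have c : j ≡ j₁ [MOD L] := b
      exact ⟨Eq.trans (c.of_dvd l2) a1, Nat.modEq_zero_iff_dvd.1
        ((c.of_dvd l1).trans (Nat.modEq_zero_iff_dvd.2 a2))⟩
  refine le_of_eq_of_le (congrArg _ ?_) (h L n (j₁ % L) hn)
  have r0 := Nat.mod_lt j₁ L0
  refine sum_nbij' (fun j => j / L) (fun i => j₁ % L + L * i) (fun j hj => ?_) (fun i hi => ?_)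
    (fun j hj => ?_) (fun i _ => ?_) fun j hj => ?_
  · exact mem_range.2 (Nat.div_lt_of_lt_mul (hn ▸ mem_range.1 (mem_filter.1 hj).1))
  · refine mem_filter.2 ⟨mem_range.2 ?_, (key _).2 (by rw [Nat.add_mul_mod_self_left, Nat.mod_mod])⟩
    have := Nat.mul_le_mul_left L (Nat.succ_le_of_lt (mem_range.1 hi))
    rw [Nat.mul_succ] at this
    omega
  · rw [← (key j).1 (mem_filter.1 hj).2, Nat.mod_add_div]
  · rw [Nat.add_mul_div_left _ _ L0, Nat.div_eq_of_lt r0, zero_add]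
  · rw [← (key j).1 (mem_filter.1 hj).2, Nat.mod_add_div]

lemma root_mu (k : ℕ) : ∑ e ∈ k.divisors, (ArithmeticFunction.moebius e : ℝ) =
    if k = 1 then 1 else 0 := by
  have := congrArg (fun f : ArithmeticFunction ℝ => f k) ArithmeticFunction.coe_moebius_mul_coe_zeta
  simpa only [ArithmeticFunction.coe_mul_zeta_apply, ArithmeticFunction.one_apply,
    ArithmeticFunction.intCoe_apply] using this

theorem sRoot : SRoot := by
  intro N g ι X₀ α z d hN hg hX hz hz2 hd hd1 h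
  have N1 : (1 : ℝ) ≤ N := by exact_mod_cast hN
  have hB : 0 ≤ Real.log (3 * N / d) :=
    Real.log_nonneg (by rw [le_div_iff₀ hd]; linarith)
  set Φ : ℕ → ℝ := fun j => Real.log ‖X₀ ^ j * z - α‖ - Real.log (max 1 ‖α‖) with hΦ
  have e : ∑ j ∈ (Cop N).filter fun j => j % g = ι, Φ j = ∑ e ∈ N.divisors,
      (ArithmeticFunction.moebius e : ℝ) * ∑ j ∈ (range N).filter fun j => j % g = ι ∧ e ∣ j, Φ j := by
    simp only [Cop, filter_filter, sum_filter, mul_sum]
    rw [sum_comm]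
    refine sum_congr rfl fun j _ => ?_
    by_cases hj : j % g = ι
    · simp only [hj, and_true, true_and, mul_ite, mul_zero]
      rw [← sum_filter, ← sum_mul]
      have : N.divisors.filter (fun e => e ∣ j) = (j.gcd N).divisors := by
        ext e
        simp only [mem_filter, Nat.mem_divisors, Nat.dvd_gcd_iff, ne_eq, Nat.gcd_eq_zero_iff, hN.ne']
        tauto
      rw [this, root_mu, ite_mul, one_mul, zero_mul]
    · simp [hj]
  have b : |∑ j ∈ (Cop N).filter fun j => j % g = ι, Φ j| ≤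
      N.divisors.card * Real.log (3 * N / d) := by
    rw [e, ← nsmul_eq_mul]
    refine (abs_sum_le_sum_abs _ _).trans (sum_le_card_nsmul _ _ _ fun e he => ?_)
    rw [abs_mul]
    refine (mul_le_of_le_one_left (abs_nonneg _) ?_).trans
      (root_class hN hg (Nat.dvd_of_mem_divisors he) Φ hB fun L n j hL => ?_)
    · exact_mod_cast ArithmeticFunction.abs_moebius_le_one
    · subst hL
      exact root_prog hN hX hz hz2 hd hd1 h j
  have c := (abs_le.1 b).1
  rw [hΦ, sum_sub_distrib, sum_const, nsmul_eq_mul] at c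
  linarith

end Pool.Agent.MP_c1891a_nt.H43
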